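import Pool.Agent.Y17.N.Defs2
import Pool.Agent.Y614.Z.Rte
import Pool.Agent.Y155.Z701.Exi

/-! Z17N-XRQ: roots for the twist by `-q`, existence of `q` -/

set_option autoImplicit false
set_option linter.style.haveILetI false

namespace Pool.Agent.Y563.N.Xrq

open Finset
open Pool.Agent.Z700 (pr Yd lres xrt)
open Pool.Agent.Y700 (Rt)
open Pool.Agent.Y17.N

theorem t_XRQ : S_XRQ := by
  intro p q hp hq
  have : Fact p.Prime := ⟨hp.1⟩
  obtain ⟨c, hc, hR⟩ := Pool.Agent.Y614.Z.Rt_iff (p := p) hp.2.1 hp.2.2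
  have hpq : p ≠ q := by
    rintro rfl
    have h1 := hp.2.1
    have h2 := hq.2.1
    omega
  have hq0 : (q : ZMod p) ≠ 0 := by
    intro h
    rw [ZMod.natCast_eq_zero_iff] at h
    exact hpq ((Nat.prime_dvd_prime_iff_eq hp.1 hq.1).1 h)
  have h1 := hR 1 (by simp)
  have h2 := hR q hq0
  rw [Nat.cast_one, map_one, one_mul] at h1
  have h3 : quadraticChar (ZMod p) (q : ZMod p) = jacobiSym q p := by
    rw [← jacobiSym.legendreSym.to_jacobiSym, legendreSym]
    norm_num
  unfold xrQ eQ Pool.Agent.Z700.xrt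
  rcases quadraticChar_dichotomy hq0 with h | h <;> rw [h] at h2 h3 <;>
    rcases hc with rfl | rfl
  · rw [if_neg (fun h => absurd (h2.1 h) (by norm_num)),
      if_neg (fun h => absurd (h1.1 h) (by norm_num)), ← h3]
    norm_num
  · rw [if_pos (h2.2 (by norm_num)), if_pos (h1.2 (by norm_num)), ← h3]
    norm_num
  · rw [if_pos (h2.2 (by norm_num)), if_neg (fun h => absurd (h1.1 h) (by norm_num)), ← h3]
    norm_num
  · rw [if_neg (fun h => absurd (h2.1 h) (by norm_num)), if_pos (h1.2 (by norm_num)), ← h3]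
    norm_num

/-- infinitely many primes `q` with given symbols -/
theorem inf_qr (F : Finset ℕ) (hF : ∀ p ∈ F, Sp p) (s : ℕ → ℤ)
    (hs : ∀ p ∈ F, s p = 1 ∨ s p = -1) : {q | Qr q ∧ ∀ p ∈ F, jacobiSym q p = s p}.Infinite := by
  classical
  have hr : ∀ p : ℕ, ∃ r : ℕ, p ∈ F → jacobiSym r p = s p := by
    intro p
    by_cases hp : p ∈ F
    · obtain ⟨r, hr⟩ := Pool.Agent.Y155.Z701.exists_res (hF p hp) (hs p hp)
      exact ⟨r, fun _ => hr⟩
    · exact ⟨0, fun h => absurd h hp⟩
  choose r hr using hr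
  have h56 : 56 ∉ F := fun h => by
    have := (hF 56 h).2.1
    omega
  have hc56 : ∀ p ∈ F, Nat.Coprime 56 p := by
    intro p hp
    obtain ⟨pp, p8, p7⟩ := hF p hp
    rw [show (56 : ℕ) = 2 ^ 3 * 7 by norm_num]
    refine Nat.Coprime.mul_left (Nat.Coprime.pow_left 3
      ((Nat.coprime_primes Nat.prime_two pp).2 (by omega)))
      ((Nat.coprime_primes (by norm_num) pp).2 (by omega))
  have hpair : Set.Pairwise (↑(insert 56 F) : Set ℕ) (Function.onFun Nat.Coprime id) := by
    intro a ha b hb hab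
    simp only [Finset.coe_insert, Set.mem_insert_iff, Finset.mem_coe] at ha hb
    simp only [Function.onFun, id]
    rcases ha with rfl | ha <;> rcases hb with rfl | hb
    · exact absurd rfl hab
    · exact hc56 b hb
    · exact (hc56 a ha).symm
    · exact (Nat.coprime_primes (hF a ha).1 (hF b hb).1).mpr hab
  have hne : ∀ i ∈ insert 56 F, id i ≠ 0 := by
    intro i hi
    rcases Finset.mem_insert.mp hi with rfl | hi
    · norm_num
    · exact (hF i hi).1.ne_zero
  obtain ⟨n, hn⟩ := Nat.chineseRemainderOfFinset (fun i => if i = 56 then 3 else r i) id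
    (insert 56 F) hne hpair
  simp only [id] at hn
  have hn1 : n ≡ 3 [MOD 56] := by
    have := hn 56 (Finset.mem_insert_self _ _)
    simpa using this
  have hn2 : ∀ p ∈ F, n ≡ r p [MOD p] := by
    intro p hp
    have := hn p (Finset.mem_insert_of_mem hp)
    rwa [if_neg (fun h : p = 56 => h56 (h ▸ hp))] at this
  set N := ∏ i ∈ insert 56 F, i with hN
  have hN0 : N ≠ 0 := Finset.prod_ne_zero_iff.mpr hne
  haveI : NeZero N := ⟨hN0⟩
  have hcop : Nat.Coprime n N := by
    refine Nat.Coprime.prod_right fun i hi => ?_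
    rcases Finset.mem_insert.mp hi with rfl | hi
    · rw [Nat.coprime_iff_gcd_eq_one, hn1.gcd_eq]
      norm_num
    · rw [Nat.coprime_iff_gcd_eq_one, (hn2 i hi).gcd_eq]
      have h1 := hr i hi
      by_contra hg
      have h2 : jacobiSym (r i) i = 0 := by
        rw [jacobiSym.eq_zero_iff]
        exact ⟨(hF i hi).1.ne_zero, by rwa [Int.gcd_natCast_natCast]⟩
      rw [h2] at h1
      rcases hs i hi with h | h <;> rw [h] at h1 <;> norm_num at h1
  have hunit : IsUnit ((n : ℕ) : ZMod N) := by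
    rw [ZMod.isUnit_iff_coprime]
    exact hcop
  refine (Nat.infinite_setOfPred_prime_and_eq_mod hunit).mono ?_
  rintro q ⟨hq, hqn⟩
  rw [ZMod.natCast_eq_natCast_iff] at hqn
  have hdv : ∀ i ∈ insert 56 F, i ∣ N := fun i hi => Finset.dvd_prod_of_mem _ hi
  have hq1 : q ≡ 3 [MOD 56] := (hqn.of_dvd (hdv 56 (Finset.mem_insert_self _ _))).trans hn1
  have hq2 : ∀ p ∈ F, q ≡ r p [MOD p] := fun p hp =>
    (hqn.of_dvd (hdv p (Finset.mem_insert_of_mem hp))).trans (hn2 p hp)
  have hJ : ∀ p ∈ F, jacobiSym q p = s p := by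
    intro p hp
    rw [← hr p hp]
    apply jacobiSym.mod_left'
    exact_mod_cast hq2 p hp
  have h1 : q % 56 = 3 := by simpa [Nat.ModEq] using hq1
  exact ⟨⟨hq, by omega, by omega⟩, hJ⟩

theorem t_EXQ (h : S_XRQ) : S_EXQ := by
  classical
  intro P hP
  obtain ⟨e, he, ho⟩ := Pool.Agent.Y155.Z701.exists_e lres P xrt
  have hinf := inf_qr P hP (fun p => if e p = 1 then -1 else 1) (fun p _ => by
    by_cases h1 : e p = 1
    · right; simp [h1]
    · left; simp [h1])
  refine (hinf.sdiff (Set.finite_singleton 3)).mono ?_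
  rintro q ⟨⟨hq, hJ⟩, hq3⟩
  refine ⟨hq, fun h => hq3 h, ?_⟩
  refine (Pool.Agent.Y155.Z701.yd_mod fun p hp => ?_).1 ho
  have e2 := h p q (hP p hp) hq
  have hJp : jacobiSym q p = if e p = 1 then -1 else 1 := hJ p hp
  have e4 : eQ q p = e p := by
    unfold eQ
    rw [hJp]
    rcases he p with h1 | h1
    · rw [h1]; norm_num
    · rw [h1]; norm_num
  rw [e2, e4]

end Pool.Agent.Y563.N.Xrq
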